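import Pool.Agent.H90.HW.Stmts

namespace Pool.Agent.H90.HW

open Polynomial

private noncomputable def shiftE : (ℕ → ℂ) →ₗ[ℂ] (ℕ → ℂ) where
  toFun x := fun k => x (k + 1)
  map_add' _ _ := rfl
  map_smul' _ _ := rfl

private theorem shiftE_pow (i : ℕ) (x : ℕ → ℂ) (k : ℕ) : (shiftE ^ i) x k = x (k + i) := by
  induction i generalizing x k with
  | zero => simp
  | succ i ih =>
    rw [pow_succ, Module.End.mul_apply, ih]
    change x (k + i + 1) = _
    rw [add_assoc]

private theorem aeval_shiftE (P : ℂ[X]) (x : ℕ → ℂ) (k : ℕ) :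
    (aeval shiftE P) x k = P.sum fun i a => a * x (k + i) := by
  rw [aeval_def, eval₂_eq_sum, Polynomial.sum_def, Polynomial.sum_def]
  rw [LinearMap.sum_apply, Finset.sum_apply]
  refine Finset.sum_congr rfl fun i _ => ?_
  rw [Module.End.mul_apply, Module.algebraMap_end_apply, Pi.smul_apply, shiftE_pow, smul_eq_mul]

private theorem rec_aux (S : Finset ℂ) : ∀ x : ℕ → ℂ,
    (aeval shiftE (∏ α ∈ S, (X - C α) : ℂ[X])) x = 0 →
    ∃ n : ℂ → ℂ, ∀ k, x k = ∑ α ∈ S, n α * α ^ k := by
  classical
  induction S using Finset.induction_on with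
  | empty =>
    intro x hx
    refine ⟨0, fun k => ?_⟩
    simp at hx
    simp [hx]
  | insert β S hβ ih =>
    intro x hx
    rw [Finset.prod_insert hβ, mul_comm, map_mul, Module.End.mul_apply] at hx
    obtain ⟨n, hn⟩ := ih _ hx
    have h1 : ∀ k, x (k + 1) - β * x k = ∑ α ∈ S, n α * α ^ k := by
      intro k
      rw [← hn k, map_sub, aeval_X, aeval_C, LinearMap.sub_apply, Module.algebraMap_end_apply]
      rfl
    have hne : ∀ α ∈ S, α - β ≠ 0 := by
      intro α hα h
      rw [sub_eq_zero] at h
      exact hβ (h ▸ hα)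
    let c : ℂ := x 0 - ∑ α ∈ S, n α / (α - β)
    refine ⟨fun α => if α = β then c else n α / (α - β), ?_⟩
    have hs : ∀ k, (∑ α ∈ insert β S, (if α = β then c else n α / (α - β)) * α ^ k) =
        c * β ^ k + ∑ α ∈ S, n α / (α - β) * α ^ k := by
      intro k
      rw [Finset.sum_insert hβ, if_pos rfl]
      congr 1
      refine Finset.sum_congr rfl fun α hα => ?_
      rw [if_neg]
      rintro rfl
      exact hβ hα
    intro k
    rw [hs]
    induction k with
    | zero => simp [c]
    | succ k ihk =>
      have h2 : x (k + 1) = β * x k + ∑ α ∈ S, n α * α ^ k := by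
        rw [← h1 k]; ring
      rw [h2, ihk, mul_add, Finset.mul_sum, add_assoc, ← Finset.sum_add_distrib]
      congr 1
      · ring
      · refine Finset.sum_congr rfl fun α hα => ?_
        have := hne α hα
        field_simp
        ring

theorem rec : SRec := by
  intro S x h
  apply rec_aux S x
  funext k
  rw [aeval_shiftE]
  exact h k

end Pool.Agent.H90.HW
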