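import Pool.Agent.H90.HW.Stmts

namespace Pool.Agent.H90.HW

private theorem sz_weight_inj {p : ℕ} (hp : 2 ≤ p) {x y : ℝ} (h : (p : ℝ) ^ x = (p : ℝ) ^ y) :
    x = y := by
  have h1 : (1 : ℝ) < p := by exact_mod_cast hp
  exact (Real.rpow_right_inj (by linarith) (ne_of_gt h1)).1 h

private theorem sz_norm_mul {p : ℕ} (hp : 2 ≤ p) (α : ℂ) (j : ℕ) (w : ℤ)
    (h : ‖α * (p : ℂ) ^ j‖ = (p : ℝ) ^ ((w : ℝ) / 2)) :
    ‖α‖ = (p : ℝ) ^ (((w - 2 * j : ℤ) : ℝ) / 2) := by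
  have h0 : (0 : ℝ) < p := by positivity
  have hne : ((p : ℝ) ^ j) ≠ 0 := by positivity
  rw [norm_mul, norm_pow, Complex.norm_natCast] at h
  have : ((w - 2 * j : ℤ) : ℝ) / 2 = (w : ℝ) / 2 - (j : ℝ) := by push_cast; ring
  rw [this, Real.rpow_sub h0, Real.rpow_natCast, ← h]
  field_simp

private theorem sz_norm_div {p : ℕ} (hp : 2 ≤ p) (α : ℂ) (j : ℕ) (w : ℤ)
    (h : ‖α / (p : ℂ) ^ j‖ = (p : ℝ) ^ ((w : ℝ) / 2)) :
    ‖α‖ = (p : ℝ) ^ (((w + 2 * j : ℤ) : ℝ) / 2) := by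
  have h0 : (0 : ℝ) < p := by positivity
  have hne : ((p : ℝ) ^ j) ≠ 0 := by positivity
  rw [norm_div, norm_pow, Complex.norm_natCast] at h
  have : ((w + 2 * j : ℤ) : ℝ) / 2 = (w : ℝ) / 2 + (j : ℝ) := by push_cast; ring
  rw [this, Real.rpow_add h0, Real.rpow_natCast, ← h]
  field_simp

private theorem sz_inj {p : ℕ} (hp : 2 ≤ p) {α : ℂ} (hα : α ≠ 0) :
    Function.Injective fun j : ℕ => α * (p : ℂ) ^ j := by
  intro i j h
  have h1 : ((p : ℂ) ^ i) = (p : ℂ) ^ j := mul_left_cancel₀ hα h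
  have h2 : p ^ i = p ^ j := by exact_mod_cast h1
  exact Nat.pow_right_injective hp h2

private theorem sz_inj' {p : ℕ} (hp : 2 ≤ p) {α : ℂ} (hα : α ≠ 0) :
    Function.Injective fun j : ℕ => α / (p : ℂ) ^ j := by
  intro i j h
  have h0 : (p : ℂ) ≠ 0 := by
    have : p ≠ 0 := by omega
    exact_mod_cast this
  simp only [div_eq_mul_inv] at h
  have h1 := inv_injective (mul_left_cancel₀ hα h)
  have h2 : p ^ i = p ^ j := by exact_mod_cast h1
  exact Nat.pow_right_injective hp h2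

private theorem sz_exists {f : ℕ → ℂ} (hf : Function.Injective f) (ν : ℂ →₀ ℤ) :
    ∃ j, ν (f j) = 0 := by
  by_contra h
  push Not at h
  have : Set.range f ⊆ (ν.support : Set ℂ) := by
    rintro _ ⟨j, rfl⟩
    exact Finset.mem_coe.2 (Finsupp.mem_support_iff.2 (h j))
  exact (Set.infinite_range_of_injective hf) ((Finset.finite_toSet _).subset this)

private theorem sz_up {p : ℕ} (hp : 2 ≤ p) (μ ν : ℂ →₀ ℤ) (h : ∀ α, ν (α / p) - ν α = μ α)
    (α : ℂ) (n : ℕ) :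
    ν α = ν (α * (p : ℂ) ^ n) + ∑ j ∈ Finset.range n, μ (α * (p : ℂ) ^ (j + 1)) := by
  have h0 : (p : ℂ) ≠ 0 := by
    have : p ≠ 0 := by omega
    exact_mod_cast this
  induction n with
  | zero => simp
  | succ n ih =>
    rw [Finset.sum_range_succ]
    have h1 := h (α * (p : ℂ) ^ (n + 1))
    have h2 : α * (p : ℂ) ^ (n + 1) / p = α * (p : ℂ) ^ n := by
      rw [pow_succ]; field_simp
    rw [h2] at h1
    linarith

private theorem sz_down {p : ℕ} (hp : 2 ≤ p) (μ ν : ℂ →₀ ℤ) (h : ∀ α, ν (α / p) - ν α = μ α)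
    (α : ℂ) (n : ℕ) :
    ν α = ν (α / (p : ℂ) ^ n) - ∑ j ∈ Finset.range n, μ (α / (p : ℂ) ^ j) := by
  have h0 : (p : ℂ) ≠ 0 := by
    have : p ≠ 0 := by omega
    exact_mod_cast this
  induction n with
  | zero => simp
  | succ n ih =>
    rw [Finset.sum_range_succ]
    have h1 := h (α / (p : ℂ) ^ n)
    have h2 : α / (p : ℂ) ^ n / p = α / (p : ℂ) ^ (n + 1) := by
      rw [pow_succ]; field_simp
    rw [h2] at h1
    linarith

theorem size : SSize := by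
  classical
  intro p hp B μ ν hμ hsum h hν0
  have h0 : (p : ℂ) ≠ 0 := by
    have : p ≠ 0 := by omega
    exact_mod_cast this
  have hw : ∀ α, ν α ≠ 0 → ∃ w : ℤ, |w| ≤ B ∧ ‖α‖ = (p : ℝ) ^ ((w : ℝ) / 2) := by
    intro α hα
    have hα0 : α ≠ 0 := by
      rintro rfl
      exact hα hν0
    -- up
    obtain ⟨n, hn⟩ := sz_exists (sz_inj hp hα0) ν
    have hup := sz_up hp μ ν h α n
    have hn' : ν (α * (p : ℂ) ^ n) = 0 := hn
    rw [hn', zero_add] at hup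
    obtain ⟨j, -, hj⟩ : ∃ j ∈ Finset.range n, μ (α * (p : ℂ) ^ (j + 1)) ≠ 0 := by
      by_contra hcon
      push Not at hcon
      exact hα (hup.trans (Finset.sum_eq_zero hcon))
    obtain ⟨w, hwB, hw⟩ := hμ _ hj
    have hwα := sz_norm_mul hp α (j + 1) w hw
    -- down
    obtain ⟨m, hm⟩ := sz_exists (sz_inj' hp hα0) ν
    have hdn := sz_down hp μ ν h α m
    have hm' : ν (α / (p : ℂ) ^ m) = 0 := hm
    rw [hm', zero_sub] at hdn
    obtain ⟨i, -, hi⟩ : ∃ i ∈ Finset.range m, μ (α / (p : ℂ) ^ i) ≠ 0 := by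
      by_contra hcon
      push Not at hcon
      exact hα (by rw [hdn, Finset.sum_eq_zero hcon, neg_zero])
    obtain ⟨v, hvB, hv⟩ := hμ _ hi
    have hvα := sz_norm_div hp α i v hv
    have heq : (((w - 2 * ((j + 1 : ℕ) : ℤ) : ℤ) : ℝ) / 2) = (((v + 2 * (i : ℤ) : ℤ) : ℝ) / 2) :=
      sz_weight_inj hp (hwα.symm.trans hvα)
    have heq' : w - 2 * ((j + 1 : ℕ) : ℤ) = v + 2 * (i : ℤ) := by
      have : ((w - 2 * ((j + 1 : ℕ) : ℤ) : ℤ) : ℝ) = ((v + 2 * (i : ℤ) : ℤ) : ℝ) := by linarith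
      exact_mod_cast this
    refine ⟨w - 2 * ((j + 1 : ℕ) : ℤ), ?_, hwα⟩
    rw [abs_le] at hwB hvB ⊢
    constructor
    · rw [heq']; omega
    · have := hwB.2; push_cast; omega
  refine ⟨hw, ?_⟩
  have key : ∀ α ∈ ν.support, ν α = ∑ j ∈ Finset.range (B + 1), μ (α * (p : ℂ) ^ (j + 1)) := by
    intro α hα
    have hα' : ν α ≠ 0 := Finsupp.mem_support_iff.1 hα
    rw [sz_up hp μ ν h α (B + 1)]
    suffices hz : ν (α * (p : ℂ) ^ (B + 1)) = 0 by rw [hz, zero_add]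
    by_contra hne
    obtain ⟨w, hwB, hw1⟩ := hw _ hne
    obtain ⟨v, hvB, hv1⟩ := hw _ hα'
    have hw2 := sz_norm_mul hp α (B + 1) w hw1
    have heq : (((w - 2 * ((B + 1 : ℕ) : ℤ) : ℤ) : ℝ) / 2) = ((v : ℤ) : ℝ) / 2 :=
      sz_weight_inj hp (hw2.symm.trans hv1)
    have heq' : w - 2 * ((B + 1 : ℕ) : ℤ) = v := by
      have : ((w - 2 * ((B + 1 : ℕ) : ℤ) : ℤ) : ℝ) = ((v : ℤ) : ℝ) := by linarith
      exact_mod_cast this
    rw [abs_le] at hwB hvB
    push_cast at heq'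
    omega
  have hinj : ∀ j : ℕ, Function.Injective fun α : ℂ => α * (p : ℂ) ^ (j + 1) := by
    intro j
    exact mul_left_injective₀ (pow_ne_zero _ h0)
  have hone : ∀ j : ℕ, ∑ α ∈ ν.support, |μ (α * (p : ℂ) ^ (j + 1))| ≤ μ.sum fun _ c => |c| := by
    intro j
    rw [Finsupp.sum, ← Finset.sum_image (f := fun β => |μ β|)
      (g := fun α : ℂ => α * (p : ℂ) ^ (j + 1)) (fun a _ b _ hab => hinj j hab)]
    rw [← Finset.sum_filter_add_sum_filter_not (ν.support.image _) (fun β => β ∈ μ.support)]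
    have h2 : ∑ x ∈ (ν.support.image fun α : ℂ => α * (p : ℂ) ^ (j + 1)).filter
        (fun β => β ∉ μ.support), |μ x| = 0 := by
      apply Finset.sum_eq_zero
      intro x hx
      have := (Finset.mem_filter.1 hx).2
      rw [Finsupp.notMem_support_iff] at this
      rw [this, abs_zero]
    rw [h2, add_zero]
    apply Finset.sum_le_sum_of_subset_of_nonneg
    · intro x hx
      exact (Finset.mem_filter.1 hx).2
    · intro x _ _
      exact abs_nonneg _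
  calc (ν.sum fun _ c => |c|)
      = ∑ α ∈ ν.support, |∑ j ∈ Finset.range (B + 1), μ (α * (p : ℂ) ^ (j + 1))| := by
        rw [Finsupp.sum]
        exact Finset.sum_congr rfl fun α hα => by rw [← key α hα]
    _ ≤ ∑ α ∈ ν.support, ∑ j ∈ Finset.range (B + 1), |μ (α * (p : ℂ) ^ (j + 1))| :=
        Finset.sum_le_sum fun α _ => Finset.abs_sum_le_sum_abs _ _
    _ = ∑ j ∈ Finset.range (B + 1), ∑ α ∈ ν.support, |μ (α * (p : ℂ) ^ (j + 1))| :=
        Finset.sum_comm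
    _ ≤ ∑ _j ∈ Finset.range (B + 1), (B : ℤ) :=
        Finset.sum_le_sum fun j _ => (hone j).trans hsum
    _ = (B + 1) * B := by simp

end Pool.Agent.H90.HW
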